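import Pool.Agent.H42.Vdia1

open Pool.Agent.H42.VecDefs Pool.Agent.H42.VdiaDefs Cardinal

theorem Pool.Agent.Results.MP_1dfcde_lc.Yes.result (F : Type) [Field F] [Countable F]
    (H : Diamond) :
    (∃ A : Set (Submodule F (ℕ →₀ F)), BlockMad A ∧ Mad A ∧ #A = ℵ₁) ∧ aVec F = ℵ₁ :=
  Pool.Agent.H42.Vdia1.final F H
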